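import Mathlib

set_option autoImplicit false

namespace Pool.Agent.Results.MP_a437dc_al.NotConditionallyFlat

open CategoryTheory

universe u

/-! ### Definitions of the problem -/

/-- The local groups of rationalization: `x ↦ x ^ p` is a bijection for every prime `p`. -/
def IsLocal (T : Type u) [Group T] : Prop :=
  ∀ p : ℕ, p.Prime → Function.Bijective (fun x : T => x ^ p)

/-- `(L, η)` is the rationalization functor: `η_G : G → LG` is universal among the homomorphisms
from `G` to local groups, for every group `G`. -/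
structure IsRationalization (L : GrpCat.{u} ⥤ GrpCat.{u}) (η : 𝟭 GrpCat.{u} ⟶ L) : Prop where
  isLocal : ∀ G : GrpCat.{u}, IsLocal (L.obj G)
  univ : ∀ (G T : GrpCat.{u}), IsLocal T → ∀ f : G ⟶ T, ∃! g : L.obj G ⟶ T, η.app G ≫ g = f

/-- `1 → N → E → G → 1` is a short exact sequence of groups. -/
structure IsExtension {N E G : GrpCat.{u}} (i : N ⟶ E) (p : E ⟶ G) : Prop where
  inj : Function.Injective i
  exact : ∀ e : E, p e = 1 ↔ ∃ n : N, i n = e
  surj : Function.Surjective p

/-- The fibre product `E ×_G H`. -/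
def fibre {E G H : GrpCat.{u}} (p : E ⟶ G) (α : H ⟶ G) : Subgroup (E × H) where
  carrier := {x | p x.1 = α x.2}
  one_mem' := by simp
  mul_mem' := by
    intro x y hx hy
    simp only [Set.mem_ofPred_eq] at hx hy ⊢
    rw [Prod.fst_mul, Prod.snd_mul, map_mul, map_mul, hx, hy]
  inv_mem' := by
    intro x hx
    simp only [Set.mem_ofPred_eq] at hx ⊢
    rw [Prod.fst_inv, Prod.snd_inv, map_inv, map_inv, hx]

/-- The map `N → E ×_G H`. -/
def fibreIn {N E G H : GrpCat.{u}} (i : N ⟶ E) (p : E ⟶ G) (α : H ⟶ G)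
    (h : ∀ n : N, p (i n) = 1) : N ⟶ GrpCat.of (fibre p α) :=
  GrpCat.ofHom
    { toFun := fun n => ⟨(i n, 1), by show p (i n) = α 1; rw [h, map_one]⟩
      map_one' := by
        apply Subtype.ext
        simp
      map_mul' := by
        intro a b
        apply Subtype.ext
        simp }

/-- The projection `E ×_G H → H`. -/
def fibreSnd {E G H : GrpCat.{u}} (p : E ⟶ G) (α : H ⟶ G) : GrpCat.of (fibre p α) ⟶ H :=
  GrpCat.ofHom ((MonoidHom.snd E H).comp (fibre p α).subtype)

/-- `L` is conditionally flat: the pullback of every `L`-flat extension is `L`-flat. -/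
def ConditionallyFlat (L : GrpCat.{u} ⥤ GrpCat.{u}) : Prop :=
  ∀ (N E G H : GrpCat.{u}) (i : N ⟶ E) (p : E ⟶ G) (α : H ⟶ G) (h : IsExtension i p),
    IsExtension (L.map i) (L.map p) →
      IsExtension (L.map (fibreIn i p α (fun n => (h.exact (i n)).2 ⟨n, rfl⟩)))
        (L.map (fibreSnd p α))

/-! ### Existence of the rationalization -/

/-- Terms with multiplications, inverses and roots of prime order. -/
inductive Tm (G : Type u) : Type u
  | of : G → Tm G
  | mul : Tm G → Tm G → Tm G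
  | inv : Tm G → Tm G
  | rt : Nat.Primes → Tm G → Tm G

/-- Powers of terms. -/
def pw {G : Type u} [Group G] (a : Tm G) : ℕ → Tm G
  | 0 => Tm.of 1
  | n + 1 => Tm.mul (pw a n) a

/-- The congruence. -/
inductive Rel {G : Type u} [Group G] : Tm G → Tm G → Prop
  | refl (a : Tm G) : Rel a a
  | symm {a b : Tm G} : Rel a b → Rel b a
  | trans {a b c : Tm G} : Rel a b → Rel b c → Rel a c
  | mul {a a' b b' : Tm G} : Rel a a' → Rel b b' → Rel (Tm.mul a b) (Tm.mul a' b')
  | inv {a a' : Tm G} : Rel a a' → Rel (Tm.inv a) (Tm.inv a')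
  | rt {a a' : Tm G} (p : Nat.Primes) : Rel a a' → Rel (Tm.rt p a) (Tm.rt p a')
  | assoc (a b c : Tm G) : Rel (Tm.mul (Tm.mul a b) c) (Tm.mul a (Tm.mul b c))
  | one_mul (a : Tm G) : Rel (Tm.mul (Tm.of 1) a) a
  | inv_mul (a : Tm G) : Rel (Tm.mul (Tm.inv a) a) (Tm.of 1)
  | of_mul (g h : G) : Rel (Tm.of (g * h)) (Tm.mul (Tm.of g) (Tm.of h))
  | rt_pow (p : Nat.Primes) (a : Tm G) : Rel (pw (Tm.rt p a) p.1) a
  | pow_rt (p : Nat.Primes) (a : Tm G) : Rel (Tm.rt p (pw a p.1)) a

/-- The setoid. -/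
def tmSetoid (G : Type u) [Group G] : Setoid (Tm G) := ⟨Rel, ⟨Rel.refl, Rel.symm, Rel.trans⟩⟩

/-- The carrier of the rationalization. -/
def Rz (G : Type u) [Group G] : Type u := Quotient (tmSetoid G)

section RzGroup

variable {G : Type u} [Group G]

/-- The class of a term. -/
def cl (t : Tm G) : Rz G := Quotient.mk (tmSetoid G) t

lemma cl_sound {a b : Tm G} (h : Rel a b) : cl a = cl b := Quotient.sound h

lemma exists_rep (x : Rz G) : ∃ t, cl t = x := Quotient.exists_rep x

instance : Mul (Rz G) :=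
  ⟨Quotient.map₂ Tm.mul (fun _ _ h1 _ _ h2 => Rel.mul h1 h2)⟩

instance : One (Rz G) := ⟨cl (Tm.of 1)⟩

instance : Inv (Rz G) := ⟨Quotient.map Tm.inv (fun _ _ h => Rel.inv h)⟩

/-- Roots. -/
def rtq (p : Nat.Primes) : Rz G → Rz G := Quotient.map (Tm.rt p) (fun _ _ h => Rel.rt p h)

lemma cl_mul (a b : Tm G) : cl (Tm.mul a b) = cl a * cl b := rfl
lemma cl_inv (a : Tm G) : cl (Tm.inv a) = (cl a)⁻¹ := rfl
lemma cl_one : cl (Tm.of (1 : G)) = 1 := rfl
lemma cl_rt (p : Nat.Primes) (a : Tm G) : cl (Tm.rt p a) = rtq p (cl a) := rfl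

instance : Group (Rz G) :=
  Group.ofLeftAxioms
    (by
      intro x y z
      obtain ⟨a, rfl⟩ := exists_rep x
      obtain ⟨b, rfl⟩ := exists_rep y
      obtain ⟨c, rfl⟩ := exists_rep z
      exact cl_sound (Rel.assoc a b c))
    (by
      intro x
      obtain ⟨a, rfl⟩ := exists_rep x
      exact cl_sound (Rel.one_mul a))
    (by
      intro x
      obtain ⟨a, rfl⟩ := exists_rep x
      exact cl_sound (Rel.inv_mul a))

lemma cl_pw (a : Tm G) (n : ℕ) : cl (pw a n) = cl a ^ n := by
  induction n with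
  | zero => rw [pow_zero]; rfl
  | succ n ih => rw [pow_succ, ← ih]; rfl

lemma rtq_pow (p : Nat.Primes) (x : Rz G) : rtq p x ^ p.1 = x := by
  obtain ⟨a, rfl⟩ := exists_rep x
  rw [← cl_rt, ← cl_pw]
  exact cl_sound (Rel.rt_pow p a)

lemma pow_rtq (p : Nat.Primes) (x : Rz G) : rtq p (x ^ p.1) = x := by
  obtain ⟨a, rfl⟩ := exists_rep x
  rw [← cl_pw, ← cl_rt]
  exact cl_sound (Rel.pow_rt p a)

lemma isLocal_Rz : IsLocal (Rz G) := by
  intro p hp
  constructor
  · intro x y hxy
    have h1 := pow_rtq ⟨p, hp⟩ x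
    have h2 := pow_rtq ⟨p, hp⟩ y
    have hxy' : x ^ p = y ^ p := hxy
    rw [← h1, ← h2]
    show rtq ⟨p, hp⟩ (x ^ p) = rtq ⟨p, hp⟩ (y ^ p)
    rw [hxy']
  · intro x
    exact ⟨rtq ⟨p, hp⟩ x, rtq_pow ⟨p, hp⟩ x⟩

/-- The unit. -/
def unitHom (G : Type u) [Group G] : G →* Rz G where
  toFun g := cl (Tm.of g)
  map_one' := rfl
  map_mul' g h := cl_sound (Rel.of_mul g h)

variable {T : Type u} [Group T]

/-- Evaluation of terms in a local group. -/
noncomputable def evalTm (hT : IsLocal T) (f : G →* T) : Tm G → T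
  | Tm.of g => f g
  | Tm.mul a b => evalTm hT f a * evalTm hT f b
  | Tm.inv a => (evalTm hT f a)⁻¹
  | Tm.rt p a => (Equiv.ofBijective _ (hT p.1 p.2)).symm (evalTm hT f a)

lemma evalTm_pw (hT : IsLocal T) (f : G →* T) (a : Tm G) (n : ℕ) :
    evalTm hT f (pw a n) = evalTm hT f a ^ n := by
  induction n with
  | zero => rw [pow_zero]; exact map_one f
  | succ n ih => rw [pow_succ, ← ih]; rfl

lemma root_pow (hT : IsLocal T) (p : Nat.Primes) (x : T) :
    ((Equiv.ofBijective _ (hT p.1 p.2)).symm x) ^ p.1 = x :=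
  (Equiv.ofBijective _ (hT p.1 p.2)).apply_symm_apply x

lemma pow_root (hT : IsLocal T) (p : Nat.Primes) (x : T) :
    (Equiv.ofBijective _ (hT p.1 p.2)).symm (x ^ p.1) = x :=
  (Equiv.ofBijective _ (hT p.1 p.2)).symm_apply_apply x

lemma evalTm_rel (hT : IsLocal T) (f : G →* T) {a b : Tm G} (h : Rel a b) :
    evalTm hT f a = evalTm hT f b := by
  induction h with
  | refl a => rfl
  | symm _ ih => exact ih.symm
  | trans _ _ ih1 ih2 => exact ih1.trans ih2
  | mul _ _ ih1 ih2 => simp only [evalTm, ih1, ih2]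
  | inv _ ih => simp only [evalTm, ih]
  | rt p _ ih => simp only [evalTm, ih]
  | assoc a b c => exact mul_assoc _ _ _
  | one_mul a => simp only [evalTm, map_one, one_mul]
  | inv_mul a => simp only [evalTm, map_one, inv_mul_cancel]
  | of_mul g h => exact map_mul f g h
  | rt_pow p a => rw [evalTm_pw]; exact root_pow hT p _
  | pow_rt p a =>
      show (Equiv.ofBijective _ (hT p.1 p.2)).symm (evalTm hT f (pw a p.1)) = _
      rw [evalTm_pw]; exact pow_root hT p _

/-- The induced homomorphism. -/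
noncomputable def liftHom (hT : IsLocal T) (f : G →* T) : Rz G →* T where
  toFun := Quotient.lift (s := tmSetoid G) (evalTm hT f) (fun _ _ h => evalTm_rel hT f h)
  map_one' := map_one f
  map_mul' x y := by
    obtain ⟨a, rfl⟩ := exists_rep x
    obtain ⟨b, rfl⟩ := exists_rep y
    rfl

lemma lift_unique (hT : IsLocal T) (f : G →* T) (g : Rz G →* T)
    (hg : ∀ x : G, g (unitHom G x) = f x) : g = liftHom hT f := by
  have key : ∀ t : Tm G, g (cl t) = evalTm hT f t := by
    intro t
    induction t with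
    | of x => exact hg x
    | mul a b iha ihb => rw [cl_mul, map_mul, iha, ihb]; rfl
    | inv a iha => rw [cl_inv, map_inv, iha]; rfl
    | rt p a iha =>
        apply (hT p.1 p.2).1
        show g (cl (Tm.rt p a)) ^ p.1 = _ ^ p.1
        rw [← map_pow, cl_rt, rtq_pow, iha]
        exact (root_pow hT p _).symm
  apply MonoidHom.ext
  intro x
  obtain ⟨t, rfl⟩ := exists_rep x
  exact key t

end RzGroup

/-- The rationalization functor. -/
noncomputable def LL : GrpCat.{u} ⥤ GrpCat.{u} where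
  obj G := GrpCat.of (Rz G)
  map {G H} f := GrpCat.ofHom (liftHom isLocal_Rz ((unitHom H).comp f.hom))
  map_id G := by
    apply GrpCat.hom_ext
    exact (lift_unique isLocal_Rz _ (MonoidHom.id (Rz G)) (fun x => rfl)).symm
  map_comp {G H K} f g := by
    apply GrpCat.hom_ext
    exact (lift_unique isLocal_Rz _
      ((liftHom isLocal_Rz ((unitHom K).comp g.hom)).comp
        (liftHom isLocal_Rz ((unitHom H).comp f.hom))) (fun x => rfl)).symm

/-- The unit. -/
noncomputable def eta : 𝟭 GrpCat.{u} ⟶ LL where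
  app G := GrpCat.ofHom (unitHom G)
  naturality := by
    intro G H f
    rfl

lemma isRationalization : IsRationalization LL.{u} eta where
  isLocal G := isLocal_Rz
  univ G T hT f := by
    refine ⟨GrpCat.ofHom (liftHom hT f.hom), rfl, ?_⟩
    intro g hg
    apply GrpCat.hom_ext
    apply lift_unique hT f.hom g.hom
    intro x
    have := congrArg (fun k : G ⟶ T => k.hom x) hg
    exact this

/-! ### The groups of the counterexample -/

/-- The semidirect product of the complex numbers by the rational numbers, where `r` acts as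
multiplication by `lam r`. -/
structure Aff (lam : Multiplicative ℚ →* ℂ) : Type u where
  a : ℂ
  r : ℚ

section AffGroup

variable {lam : Multiplicative ℚ →* ℂ}

/-- The value of the character. -/
def lm (lam : Multiplicative ℚ →* ℂ) (r : ℚ) : ℂ := lam (Multiplicative.ofAdd r)

lemma lm_add (r s : ℚ) : lm lam (r + s) = lm lam r * lm lam s := map_mul lam _ _

lemma lm_zero : lm lam 0 = 1 := map_one lam

lemma lm_ne (r : ℚ) : lm lam r ≠ 0 := by
  intro h
  have h1 := lm_add (lam := lam) r (-r)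
  rw [h, zero_mul, add_neg_cancel, lm_zero] at h1
  exact one_ne_zero h1

@[ext]
lemma Aff.ext' {x y : Aff.{u} lam} (h1 : x.a = y.a) (h2 : x.r = y.r) : x = y := by
  cases x; cases y; simp_all

instance : Mul (Aff.{u} lam) := ⟨fun x y => ⟨x.a + lm lam x.r * y.a, x.r + y.r⟩⟩
instance : One (Aff.{u} lam) := ⟨⟨0, 0⟩⟩
instance : Inv (Aff.{u} lam) := ⟨fun x => ⟨-(lm lam (-x.r) * x.a), -x.r⟩⟩

lemma mul_a (x y : Aff.{u} lam) : (x * y).a = x.a + lm lam x.r * y.a := rfl
lemma mul_r (x y : Aff.{u} lam) : (x * y).r = x.r + y.r := rfl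
lemma one_a : (1 : Aff.{u} lam).a = 0 := rfl
lemma one_r : (1 : Aff.{u} lam).r = 0 := rfl
lemma inv_a (x : Aff.{u} lam) : (x⁻¹).a = -(lm lam (-x.r) * x.a) := rfl
lemma inv_r (x : Aff.{u} lam) : (x⁻¹).r = -x.r := rfl

instance : Group (Aff.{u} lam) :=
  Group.ofLeftAxioms
    (by
      intro x y z
      apply Aff.ext'
      · simp only [mul_a, mul_r, lm_add]; ring
      · simp only [mul_r]; ring)
    (by
      intro x
      apply Aff.ext'
      · simp only [mul_a, one_a, one_r, lm_zero]; ring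
      · simp only [mul_r, one_r]; ring)
    (by
      intro x
      apply Aff.ext'
      · simp only [mul_a, inv_a, inv_r, one_a]; ring
      · simp only [mul_r, inv_r, one_r]; ring)

lemma pow_r (x : Aff.{u} lam) (n : ℕ) : (x ^ n).r = n * x.r := by
  induction n with
  | zero => simp [one_r]
  | succ n ih => rw [pow_succ, mul_r, ih]; push_cast; ring

lemma lm_nat (r : ℚ) (n : ℕ) : lm lam (n * r) = lm lam r ^ n := by
  induction n with
  | zero => simp [lm_zero]
  | succ n ih =>
      have : ((n + 1 : ℕ) : ℚ) * r = n * r + r := by push_cast; ring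
      rw [this, lm_add, ih, pow_succ]

lemma pow_a (x : Aff.{u} lam) (n : ℕ) :
    (x ^ n).a = (∑ k ∈ Finset.range n, lm lam x.r ^ k) * x.a := by
  induction n with
  | zero => simp [one_a]
  | succ n ih =>
      rw [pow_succ, mul_a, ih, pow_r, lm_nat, Finset.sum_range_succ]
      ring

/-- The group is local if the character has no nontrivial torsion value. -/
lemma isLocal_aff (h : ∀ r : ℚ, r ≠ 0 → lm lam r ≠ 1) : IsLocal (Aff.{u} lam) := by
  intro p hp
  have hp0 : (p : ℚ) ≠ 0 := by exact_mod_cast hp.ne_zero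
  have hS : ∀ r : ℚ, (∑ k ∈ Finset.range p, lm lam r ^ k) ≠ 0 := by
    intro r
    by_cases hr : r = 0
    · rw [hr, lm_zero]
      simp [hp.ne_zero]
    · intro h0
      have h1 := geom_sum_mul (lm lam r) p
      rw [h0, zero_mul, ← lm_nat] at h1
      have h2 : lm lam (p * r) = 1 := (sub_eq_zero.1 h1.symm)
      exact h _ (mul_ne_zero hp0 hr) h2
  constructor
  · intro x y hxy
    have hxy' : x ^ p = y ^ p := hxy
    have h1 := congrArg Aff.r hxy'
    rw [pow_r, pow_r] at h1
    have h2 : x.r = y.r := mul_left_cancel₀ hp0 h1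
    have h3 := congrArg Aff.a hxy'
    rw [pow_a, pow_a, h2] at h3
    exact Aff.ext' (mul_left_cancel₀ (hS _) h3) h2
  · intro y
    refine ⟨⟨(∑ k ∈ Finset.range p, lm lam (y.r / p) ^ k)⁻¹ * y.a, y.r / p⟩, ?_⟩
    apply Aff.ext'
    · show (_ ^ p : Aff.{u} lam).a = _
      rw [pow_a]
      show (∑ k ∈ Finset.range p, lm lam (y.r / p) ^ k) *
        ((∑ k ∈ Finset.range p, lm lam (y.r / p) ^ k)⁻¹ * y.a) = y.a
      rw [← mul_assoc, mul_inv_cancel₀ (hS _), one_mul]
    · show (_ ^ p : Aff.{u} lam).r = _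
      rw [pow_r]
      show (p : ℚ) * (y.r / p) = y.r
      field_simp

end AffGroup

/-- The character `r ↦ exp (r c)`. -/
noncomputable def chr (c : ℂ) : Multiplicative ℚ →* ℂ where
  toFun r := Complex.exp ((Multiplicative.toAdd r : ℚ) * c)
  map_one' := by simp
  map_mul' r s := by
    rw [← Complex.exp_add]
    congr 1
    rw [toAdd_mul]
    push_cast
    ring

lemma lm_chr (c : ℂ) (r : ℚ) : lm (chr c) r = Complex.exp (r * c) := rfl

lemma chr_ne_one {c : ℂ} (hc : 0 < c.re) (r : ℚ) (hr : r ≠ 0) : lm (chr c) r ≠ 1 := by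
  intro h
  rw [lm_chr] at h
  have h1 := congrArg (fun z : ℂ => ‖z‖) h
  simp only [Complex.norm_exp, norm_one, Real.exp_eq_one_iff] at h1
  have h2 : ((r : ℂ) * c).re = (r : ℝ) * c.re := by
    have : (r : ℂ) = ((r : ℝ) : ℂ) := by push_cast; rfl
    rw [this, Complex.re_ofReal_mul]
  rw [h2] at h1
  rcases mul_eq_zero.1 h1 with h3 | h3
  · apply hr
    exact_mod_cast h3
  · exact hc.ne' h3

/-- The first exponent. -/
noncomputable def c1 : ℂ := (Real.log 2 : ℝ)

/-- The second exponent. -/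
noncomputable def c2 : ℂ := (Real.log 2 : ℝ) + 2 * Real.pi * Complex.I

lemma c1_re : 0 < c1.re := by
  unfold c1
  rw [Complex.ofReal_re]
  exact Real.log_pos (by norm_num)

lemma c2_re : 0 < c2.re := by
  unfold c2
  have h0 : (2 * Real.pi * Complex.I : ℂ).re = 0 := by simp
  rw [Complex.add_re, Complex.ofReal_re, h0, add_zero]
  exact Real.log_pos (by norm_num)

lemma int_eq (n : ℤ) : lm (chr c1) n = lm (chr c2) n := by
  rw [lm_chr, lm_chr]
  unfold c1 c2
  have : ((n : ℚ) : ℂ) * ((Real.log 2 : ℝ) + 2 * Real.pi * Complex.I) =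
      ((n : ℚ) : ℂ) * (Real.log 2 : ℝ) + n * (2 * Real.pi * Complex.I) := by
    push_cast; ring
  rw [this, Complex.exp_add, Complex.exp_int_mul_two_pi_mul_I, mul_one]

lemma half_ne : lm (chr c1) (1 / 2) ≠ lm (chr c2) (1 / 2) := by
  rw [lm_chr, lm_chr]
  unfold c1 c2
  have : (((1 / 2 : ℚ)) : ℂ) * ((Real.log 2 : ℝ) + 2 * Real.pi * Complex.I) =
      ((1 / 2 : ℚ) : ℂ) * (Real.log 2 : ℝ) + Real.pi * Complex.I := by
    push_cast; ring
  rw [this, Complex.exp_add, Complex.exp_pi_mul_I]
  intro h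
  have h1 := Complex.exp_ne_zero (((1 / 2 : ℚ) : ℂ) * (Real.log 2 : ℝ))
  have h2 : (2 : ℂ) * Complex.exp (((1 / 2 : ℚ) : ℂ) * (Real.log 2 : ℝ)) = 0 := by
    linear_combination h
  rcases mul_eq_zero.1 h2 with h3 | h3
  · norm_num at h3
  · exact h1 h3

/-! ### The counterexample -/

/-- The kernel. -/
noncomputable abbrev NN : GrpCat.{u} := GrpCat.of (ULift.{u} (Multiplicative ℂ))
/-- The middle group. -/
noncomputable abbrev EE : GrpCat.{u} := GrpCat.of (Aff.{u} (chr c1))
/-- The test group. -/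
noncomputable abbrev TT : GrpCat.{u} := GrpCat.of (Aff.{u} (chr c2))
/-- The quotient. -/
noncomputable abbrev GG : GrpCat.{u} := GrpCat.of (ULift.{u} (Multiplicative ℚ))
/-- The integers. -/
noncomputable abbrev HH : GrpCat.{u} := GrpCat.of (ULift.{u} (Multiplicative ℤ))

/-- The inclusion. -/
noncomputable def ii : NN.{u} ⟶ EE.{u} := GrpCat.ofHom
  { toFun := fun z => ⟨Multiplicative.toAdd z.down, 0⟩
    map_one' := rfl
    map_mul' := fun x y => by
      apply Aff.ext'
      · show Multiplicative.toAdd x.down + Multiplicative.toAdd y.down =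
          Multiplicative.toAdd x.down + lm (chr c1) 0 * Multiplicative.toAdd y.down
        rw [lm_zero, one_mul]
      · show (0 : ℚ) = 0 + 0
        rw [add_zero] }

/-- The projection. -/
noncomputable def pp : EE.{u} ⟶ GG.{u} := GrpCat.ofHom
  { toFun := fun x => ULift.up (Multiplicative.ofAdd x.r)
    map_one' := rfl
    map_mul' := fun x y => rfl }

/-- The inclusion of the integers. -/
noncomputable def al : HH.{u} ⟶ GG.{u} := GrpCat.ofHom
  { toFun := fun x => ULift.up (Multiplicative.ofAdd ((Multiplicative.toAdd x.down : ℤ) : ℚ))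
    map_one' := rfl
    map_mul' := fun x y => by
      apply ULift.ext
      show Multiplicative.ofAdd (((Multiplicative.toAdd x.down + Multiplicative.toAdd y.down : ℤ)) : ℚ) =
        Multiplicative.ofAdd ((Multiplicative.toAdd x.down : ℤ) : ℚ) *
          Multiplicative.ofAdd ((Multiplicative.toAdd y.down : ℤ) : ℚ)
      rw [← ofAdd_add]
      push_cast
      rfl }

lemma ext_main : IsExtension ii.{u} pp where
  inj := by
    intro x y h
    have h1 := congrArg Aff.a h
    exact ULift.ext _ _ (Multiplicative.toAdd.injective h1)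
  exact := by
    intro e
    constructor
    · intro he
      have h1 : e.r = 0 := congrArg (fun z : GG.{u} => Multiplicative.toAdd z.down) he
      refine ⟨ULift.up (Multiplicative.ofAdd e.a), ?_⟩
      exact Aff.ext' rfl h1.symm
    · rintro ⟨n, rfl⟩
      rfl
  surj := by
    intro g
    exact ⟨⟨0, Multiplicative.toAdd g.down⟩, rfl⟩

lemma isLocal_E : IsLocal EE.{u} := isLocal_aff (chr_ne_one c1_re)
lemma isLocal_T : IsLocal TT.{u} := isLocal_aff (chr_ne_one c2_re)

lemma isLocal_field (F : Type) [Field F] [CharZero F] :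
    IsLocal (ULift.{u} (Multiplicative F)) := by
  intro p hp
  have hp0 : (p : F) ≠ 0 := by exact_mod_cast hp.ne_zero
  have hpw : ∀ x : ULift.{u} (Multiplicative F), Multiplicative.toAdd (x ^ p).down =
      p * Multiplicative.toAdd x.down := by
    intro x
    show Multiplicative.toAdd (x.down ^ p) = _
    rw [toAdd_pow, nsmul_eq_mul]
  constructor
  · intro x y h
    have h1 : x ^ p = y ^ p := h
    have h2 := congrArg (fun z : ULift.{u} (Multiplicative F) => Multiplicative.toAdd z.down) h1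
    simp only [hpw] at h2
    exact ULift.ext _ _ (Multiplicative.toAdd.injective (mul_left_cancel₀ hp0 h2))
  · intro y
    refine ⟨ULift.up (Multiplicative.ofAdd (Multiplicative.toAdd y.down / p)), ?_⟩
    apply ULift.ext
    apply Multiplicative.toAdd.injective
    show Multiplicative.toAdd (_ ^ p : ULift.{u} (Multiplicative F)).down = _
    rw [hpw]
    show (p : F) * (Multiplicative.toAdd y.down / p) = _
    field_simp

section Main

variable {L : GrpCat.{u} ⥤ GrpCat.{u}} {η : 𝟭 GrpCat.{u} ⟶ L}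

/-- The unit of a local group is bijective. -/
lemma unit_bij (h : IsRationalization L η) (K : GrpCat.{u}) (hK : IsLocal K) :
    Function.Bijective (η.app K) := by
  obtain ⟨r, hr, -⟩ := h.univ K K hK (𝟙 K)
  have hr' : η.app K ≫ r = 𝟙 K := hr
  have h1 : r ≫ η.app K = 𝟙 (L.obj K) := by
    obtain ⟨s, hs, hsu⟩ := h.univ K (L.obj K) (h.isLocal K) (η.app K)
    have e1 : r ≫ η.app K = s := by
      apply hsu
      show η.app K ≫ r ≫ η.app K = η.app K
      rw [← Category.assoc, hr']
      exact Category.id_comp _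
    have e2 : 𝟙 (L.obj K) = s := by
      apply hsu
      exact Category.comp_id _
    rw [e1, e2]
  constructor
  · intro x y hxy
    have e1 : ∀ x : K, r (η.app K x) = x := fun x =>
      congrArg (fun k : K ⟶ K => k.hom x) hr'
    rw [← e1 x, ← e1 y, hxy]
  · intro y
    exact ⟨r y, congrArg (fun k : L.obj K ⟶ L.obj K => k.hom y) h1⟩

lemma nat_app {A B : GrpCat.{u}} (f : A ⟶ B) (x : A) :
    L.map f (η.app A x) = η.app B (f x) := by
  have := η.naturality f
  have h2 := congrArg (fun k : A ⟶ L.obj B => k.hom x) this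
  exact h2.symm

/-- Extensions of local groups are flat. -/
lemma flat_of_local (h : IsRationalization L η) {N E G : GrpCat.{u}} {i : N ⟶ E} {p : E ⟶ G}
    (hN : IsLocal N) (hE : IsLocal E) (hG : IsLocal G) (hx : IsExtension i p) :
    IsExtension (L.map i) (L.map p) where
  inj := by
    intro a b hab
    obtain ⟨a, rfl⟩ := (unit_bij h N hN).2 a
    obtain ⟨b, rfl⟩ := (unit_bij h N hN).2 b
    rw [nat_app, nat_app] at hab
    have h1 := (unit_bij h E hE).1 hab
    rw [hx.inj h1]
  exact := by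
    intro e
    obtain ⟨e, rfl⟩ := (unit_bij h E hE).2 e
    rw [nat_app]
    constructor
    · intro h1
      have h2 : p e = 1 := (unit_bij h G hG).1 (by rw [h1]; exact (map_one (η.app G).hom).symm)
      obtain ⟨n, hn⟩ := (hx.exact e).1 h2
      exact ⟨η.app N n, by rw [nat_app, hn]⟩
    · rintro ⟨n, hn⟩
      obtain ⟨n, rfl⟩ := (unit_bij h N hN).2 n
      rw [nat_app] at hn
      have h1 := (unit_bij h E hE).1 hn
      have h2 : p e = 1 := (hx.exact e).2 ⟨n, h1⟩
      rw [h2]
      exact map_one (η.app G).hom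
  surj := by
    intro g
    obtain ⟨g, rfl⟩ := (unit_bij h G hG).2 g
    obtain ⟨e, rfl⟩ := hx.surj g
    exact ⟨η.app E e, nat_app p e⟩

/-- The pulled back middle group. -/
noncomputable abbrev PP : GrpCat.{u} := GrpCat.of (fibre pp.{u} al)

lemma PP_r (x : PP.{u}) : x.1.1.r = ((Multiplicative.toAdd x.1.2.down : ℤ) : ℚ) :=
  congrArg (fun z : GG.{u} => Multiplicative.toAdd z.down) x.2

/-- The first projection. -/
noncomputable def f1 : PP.{u} ⟶ EE.{u} := GrpCat.ofHom ((MonoidHom.fst EE HH).comp (fibre pp.{u} al).subtype)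

/-- The homomorphism to the test group. -/
noncomputable def f2 : PP.{u} ⟶ TT.{u} := GrpCat.ofHom
  { toFun := fun x => ⟨x.1.1.a, x.1.1.r⟩
    map_one' := rfl
    map_mul' := fun x y => by
      apply Aff.ext'
      · show x.1.1.a + lm (chr c1) x.1.1.r * y.1.1.a = x.1.1.a + lm (chr c2) x.1.1.r * y.1.1.a
        rw [PP_r, int_eq]
      · rfl }

/-- The lift of the generator. -/
noncomputable def tt : PP.{u} := ⟨(⟨0, 1⟩, ULift.up (Multiplicative.ofAdd 1)), by
  show ULift.up (Multiplicative.ofAdd (1 : ℚ)) = ULift.up (Multiplicative.ofAdd (((1 : ℤ)) : ℚ))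
  norm_num⟩

/-- Square roots in the semidirect products. -/
lemma sqrt_aff {lam : Multiplicative ℚ →* ℂ} (h : ∀ r : ℚ, r ≠ 0 → lm lam r ≠ 1)
    (x : Aff.{u} lam) (hx : x ^ 2 = ⟨0, 1⟩) : x = ⟨0, 1 / 2⟩ := by
  apply (isLocal_aff h 2 Nat.prime_two).1
  show x ^ 2 = (⟨0, 1 / 2⟩ : Aff.{u} lam) ^ 2
  rw [hx]
  apply Aff.ext'
  · rw [pow_a]
    simp
  · rw [pow_r]
    norm_num

lemma conj_aff {lam : Multiplicative ℚ →* ℂ} :
    (⟨0, 1 / 2⟩ : Aff.{u} lam) * ⟨1, 0⟩ * (⟨0, 1 / 2⟩ : Aff.{u} lam)⁻¹ = ⟨lm lam (1 / 2), 0⟩ := by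
  apply Aff.ext'
  · simp only [mul_a, mul_r, inv_a]
    ring
  · simp only [mul_r, inv_r]
    ring

lemma not_flat (h : IsRationalization L η) : ¬ ConditionallyFlat L := by
  intro hcf
  have hflat := hcf NN EE GG HH ii pp al ext_main (flat_of_local h (isLocal_field ℂ) isLocal_E
    (isLocal_field ℚ) ext_main)
  set j : NN.{u} ⟶ PP.{u} := fibreIn ii pp al (fun n => (ext_main.exact (ii n)).2 ⟨n, rfl⟩) with hj
  set q : PP.{u} ⟶ HH.{u} := fibreSnd pp al with hq
  obtain ⟨σ, hσ⟩ := (h.isLocal PP 2 Nat.prime_two).2 (η.app PP tt)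
  have hσ' : σ ^ 2 = η.app PP tt := hσ
  let one : NN.{u} := ULift.up (Multiplicative.ofAdd 1)
  let y : L.obj PP := σ * η.app PP (j one) * σ⁻¹
  have hy : L.map q y = 1 := by
    have h1 : L.map q (η.app PP (j one)) = 1 := by
      rw [nat_app]
      have : q (j one) = 1 := rfl
      rw [this]
      exact map_one (η.app HH).hom
    have h2 : L.map q y = L.map q σ * L.map q (η.app PP (j one)) * (L.map q σ)⁻¹ := by
      show (L.map q).hom (σ * η.app PP (j one) * σ⁻¹) = _
      rw [map_mul, map_mul, map_inv]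
    rw [h2, h1, mul_one, mul_inv_cancel]
  obtain ⟨n, hn⟩ := (hflat.exact y).1 hy
  obtain ⟨n, rfl⟩ := (unit_bij h NN (isLocal_field ℂ)).2 n
  rw [nat_app] at hn
  -- evaluate in the two groups
  have key : ∀ (lam : Multiplicative ℚ →* ℂ) (hlam : ∀ r : ℚ, r ≠ 0 → lm lam r ≠ 1)
      (f : PP.{u} ⟶ GrpCat.of (Aff.{u} lam)) (_hf : ∀ n : NN.{u}, f (j n) =
        (⟨Multiplicative.toAdd n.down, 0⟩ : Aff.{u} lam)) (_hft : f tt = (⟨0, 1⟩ : Aff.{u} lam)),
      Multiplicative.toAdd n.down = lm lam (1 / 2) := by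
    intro lam hlam f hf hft
    obtain ⟨g, hg, -⟩ := h.univ PP (GrpCat.of (Aff.{u} lam)) (isLocal_aff hlam) f
    have hg' : ∀ x : PP.{u}, g (η.app PP x) = f x := fun x =>
      congrArg (fun k : PP.{u} ⟶ GrpCat.of (Aff.{u} lam) => k.hom x) hg
    have h1 : g σ = (⟨0, 1 / 2⟩ : Aff.{u} lam) := by
      apply sqrt_aff hlam
      have : (g σ) ^ 2 = g (σ ^ 2) := (map_pow g.hom σ 2).symm
      rw [this, hσ', hg', hft]
    have h2 : g y = (⟨0, 1 / 2⟩ : Aff.{u} lam) * ⟨1, 0⟩ * (⟨0, 1 / 2⟩ : Aff.{u} lam)⁻¹ := by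
      have h3 : g y = g σ * g (η.app PP (j one)) * (g σ)⁻¹ := by
        show g.hom (σ * η.app PP (j one) * σ⁻¹) = _
        rw [map_mul, map_mul, map_inv]
      rw [h3, h1, hg', hf]
      rfl
    rw [conj_aff, ← hn, hg', hf] at h2
    exact congrArg Aff.a h2
  have k1 := key (chr c1) (chr_ne_one c1_re) f1 (fun n => rfl) rfl
  have k2 := key (chr c2) (chr_ne_one c2_re) f2 (fun n => rfl) rfl
  exact half_ne (k1.symm.trans k2)

end Main

/-- Rationalization exists as a functor on the category of groups, and it is not conditionally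
flat. -/
theorem result :
    (∃ (L : GrpCat.{u} ⥤ GrpCat.{u}) (η : 𝟭 GrpCat.{u} ⟶ L), IsRationalization L η) ∧
    ∀ (L : GrpCat.{u} ⥤ GrpCat.{u}) (η : 𝟭 GrpCat.{u} ⟶ L),
      IsRationalization L η → ¬ ConditionallyFlat L :=
  ⟨⟨LL, eta, isRationalization⟩, fun _ _ h => not_flat h⟩

end Pool.Agent.Results.MP_a437dc_al.NotConditionallyFlat
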